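import Pool.Agent.helper20.UF.HOM

set_option autoImplicit false

open Polynomial Finset

namespace Pool.Agent.helper20.UF

theorem pow_two_pow_succ {R : Type} [CommRing R] {n : ℕ} {z : R} (h : CY R n z) :
    z ^ 2 ^ (n + 1) = 1 := by
  rw [pow_succ, pow_mul, h.root]
  norm_num

theorem pow_eq_of_modEq {R : Type} [CommRing R] {n : ℕ} {z : R} (h : CY R n z) {a b : ℕ}
    (hab : a ≡ b [MOD 2 ^ (n + 1)]) : z ^ a = z ^ b := by
  have key : ∀ a : ℕ, z ^ a = z ^ (a % 2 ^ (n + 1)) := by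
    intro a
    conv_lhs => rw [← Nat.div_add_mod a (2 ^ (n + 1))]
    rw [pow_add _ _ (a % 2 ^ (n + 1)), pow_mul, pow_two_pow_succ h, one_pow, one_mul]
  rw [key a, key b, hab]

/-- The automorphism `z ↦ z ^ q`. -/
theorem aut_odd {R : Type} [CommRing R] {n : ℕ} {z : R} (h : CY R n z) (q : ℕ) (hq : Odd q) :
    ∃ τ : R ≃+* R, τ z = z ^ q := by
  have hpow : ∀ q : ℕ, Odd q → (z ^ q) ^ 2 ^ n = -1 := by
    intro q hq
    rw [← pow_mul, mul_comm, pow_mul, h.root, hq.neg_one_pow]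
  have hcop : Nat.Coprime q (2 ^ (n + 1)) :=
    Nat.Coprime.pow_right _ (Nat.coprime_two_right.mpr hq)
  obtain ⟨q', -, hq'⟩ := Nat.exists_mul_mod_eq_one_of_coprime hcop (Nat.one_lt_two_pow (by omega))
  have hq'' : q * q' ≡ 1 [MOD 2 ^ (n + 1)] := by
    unfold Nat.ModEq
    rw [hq', Nat.mod_eq_of_lt (Nat.one_lt_two_pow (by omega))]
  have hodd' : Odd q' := by
    by_contra hne
    rw [Nat.not_odd_iff_even] at hne
    have h1 : q * q' ≡ 1 [MOD 2] := hq''.of_dvd (dvd_pow_self 2 (by omega))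
    obtain ⟨k, hk⟩ := hne
    rw [hk] at h1
    unfold Nat.ModEq at h1
    have h2 : q * (k + k) % 2 = 0 := by
      rw [← two_mul, Nat.mul_left_comm]
      exact Nat.mul_mod_right _ _
    omega
  obtain ⟨φ, hφ⟩ := hom R n z h R (z ^ q) (hpow q hq)
  obtain ⟨ψ, hψ⟩ := hom R n z h R (z ^ q') (hpow q' hodd')
  have h1 : ψ.comp φ = RingHom.id R := by
    apply ext R n z h
    rw [RingHom.comp_apply, hφ, map_pow, hψ, ← pow_mul, RingHom.id_apply]
    rw [pow_eq_of_modEq h (show q' * q ≡ 1 [MOD 2 ^ (n + 1)] by rwa [mul_comm]), pow_one]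
  have h2 : φ.comp ψ = RingHom.id R := by
    apply ext R n z h
    rw [RingHom.comp_apply, hψ, map_pow, hφ, ← pow_mul, RingHom.id_apply]
    rw [pow_eq_of_modEq h hq'', pow_one]
  exact ⟨RingEquiv.ofRingHom φ ψ h2 h1, hφ⟩

theorem aut : AUT_stmt := by
  intro R _ n z h
  refine ⟨fun q hq => aut_odd h q hq, ?_⟩
  have hodd : Odd (2 ^ (n + 1) - 1) := by
    have : 2 ∣ 2 ^ (n + 1) := dvd_pow_self 2 (by omega)
    have h2 : 0 < 2 ^ (n + 1) := by positivity
    obtain ⟨k, hk⟩ := this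
    rw [hk]
    have : 1 ≤ k := by omega
    exact ⟨k - 1, by omega⟩
  obtain ⟨σ, hσ⟩ := aut_odd h _ hodd
  have h1 : z * σ z = 1 := by
    rw [hσ, ← pow_succ', Nat.sub_add_cancel Nat.one_le_two_pow, pow_two_pow_succ h]
  refine ⟨σ, h1, ?_⟩
  have h2 : (σ : R →+* R).comp (σ : R →+* R) = RingHom.id R := by
    apply ext R n z h
    rw [RingHom.comp_apply, RingHom.id_apply]
    show σ (σ z) = z
    have h3 : σ z * σ (σ z) = 1 := by
      rw [← map_mul, h1, map_one]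
    calc σ (σ z) = (z * σ z) * σ (σ z) := by rw [h1, one_mul]
      _ = z * (σ z * σ (σ z)) := by rw [mul_assoc]
      _ = z := by rw [h3, mul_one]
  intro x
  exact congrArg (fun f : R →+* R => f x) h2

end Pool.Agent.helper20.UF
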