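import Pool.Agent.helper20.UF.Spec

set_option autoImplicit false

open Polynomial Finset

namespace Pool.Agent.helper20.UF

open NumberField in
theorem exi : EXI_stmt := by
  intro n K _ _ _ z hz
  have hdim : hz.integralPowerBasis.dim = 2 ^ n := by
    rw [hz.integralPowerBasis_dim, Nat.totient_prime_pow_succ Nat.prime_two]
    simp
  have hgen := hz.integralPowerBasis_gen
  have hprim := hz.toInteger_isPrimitiveRoot
  set g : 𝓞 K := hz.toInteger with hg
  set pb := hz.integralPowerBasis with hpb
  have hb : ∀ i : Fin pb.dim, pb.basis i = g ^ (i : ℕ) := by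
    intro i
    rw [PowerBasis.coe_basis, hgen]
  refine ⟨?_, ?_, ?_⟩
  · have h1 : g ^ 2 ^ n * g ^ 2 ^ n = 1 := by
      rw [← pow_add, ← two_mul, ← pow_succ', hprim.pow_eq_one]
    have h2 : g ^ 2 ^ n ≠ 1 := by
      apply hprim.pow_ne_one_of_pos_of_lt (by positivity)
      exact Nat.pow_lt_pow_right (by norm_num) (Nat.lt_succ_self n)
    rcases mul_self_eq_one_iff.mp h1 with h | h
    · exact absurd h h2
    · exact h
  · intro x
    refine ⟨fun k => if h : k < pb.dim then pb.basis.repr x ⟨k, h⟩ else 0, ?_⟩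
    conv_lhs => rw [← pb.basis.sum_repr x]
    rw [← hdim, Finset.sum_range]
    refine Finset.sum_congr rfl fun i _ => ?_
    have h5 : (fun k => if h : k < pb.dim then pb.basis.repr x ⟨k, h⟩ else 0) (i : ℕ) = pb.basis.repr x i := by
      simp only [i.2, dif_pos]
    rw [hb i, h5, zsmul_eq_mul]
  · intro c hc k hk
    have hli := pb.basis.linearIndependent
    rw [Fintype.linearIndependent_iff] at hli
    have h3 : ∑ i : Fin pb.dim, (c i : ℤ) • pb.basis i = 0 := by
      rw [← hdim, Finset.sum_range] at hc
      rw [← hc]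
      refine Finset.sum_congr rfl fun i _ => ?_
      rw [hb i, zsmul_eq_mul]
    have hk' : k < pb.dim := by rw [hdim]; exact hk
    exact hli (fun i => c i) h3 ⟨k, hk'⟩

end Pool.Agent.helper20.UF
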