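import Pool.Agent.helper20.UF.Spec

set_option autoImplicit false

open Polynomial Finset

namespace Pool.Agent.helper20.UF

/-- The kernel of the evaluation `ℤ[X] → R` at `z`. -/
theorem dvd_of_eval_eq_zero {R : Type} [CommRing R] {n : ℕ} {z : R} (h : CY R n z) (p : ℤ[X])
    (hp : aeval z p = 0) : (X ^ 2 ^ n + 1 : ℤ[X]) ∣ p := by
  have hm : (X ^ 2 ^ n + 1 : ℤ[X]).Monic := by
    have := monic_X_pow_add_C (R := ℤ) (1 : ℤ) (n := 2 ^ n) (by positivity)
    simpa using this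
  have hd : (X ^ 2 ^ n + 1 : ℤ[X]).natDegree = 2 ^ n := by
    have := natDegree_X_pow_add_C (R := ℤ) (n := 2 ^ n) (r := 1)
    simpa using this
  rw [← modByMonic_eq_zero_iff_dvd hm]
  set q := p %ₘ (X ^ 2 ^ n + 1) with hq
  have h1 : aeval z q = 0 := by
    have h2 := congrArg (aeval z) (modByMonic_add_div p (X ^ 2 ^ n + 1 : ℤ[X]))
    rw [map_add, map_mul, hp] at h2
    have h3 : aeval z (X ^ 2 ^ n + 1 : ℤ[X]) = 0 := by
      simp [h.root]
    rw [h3, zero_mul, add_zero] at h2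
    exact h2
  have hlt : q.natDegree < 2 ^ n := by
    have h4 : (X ^ 2 ^ n + 1 : ℤ[X]) ≠ 1 := by
      intro h5
      have h6 := congrArg natDegree h5
      rw [hd, natDegree_one] at h6
      have : 0 < 2 ^ n := by positivity
      omega
    have := natDegree_modByMonic_lt p hm h4
    rwa [hd] at this
  have h5 : ∑ k ∈ range (2 ^ n), (q.coeff k : R) * z ^ k = 0 := by
    rw [← h1, aeval_eq_sum_range' hlt]
    refine Finset.sum_congr rfl fun k _ => ?_
    rw [zsmul_eq_mul]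
  ext k
  rw [coeff_zero]
  by_cases hk : k < 2 ^ n
  · exact h.indep _ h5 k hk
  · exact coeff_eq_zero_of_natDegree_lt (by omega)

theorem aeval_surj {R : Type} [CommRing R] {n : ℕ} {z : R} (h : CY R n z) :
    Function.Surjective (aeval z : ℤ[X] →ₐ[ℤ] R) := by
  intro x
  obtain ⟨c, hc⟩ := h.span x
  refine ⟨∑ k ∈ range (2 ^ n), C (c k) * X ^ k, ?_⟩
  rw [hc, map_sum]
  refine Finset.sum_congr rfl fun k _ => ?_
  simp

theorem hom : HOM_stmt := by
  intro R _ n z h T _ g hg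
  have hs : Function.Surjective ((aeval z : ℤ[X] →ₐ[ℤ] R) : ℤ[X] →+* R) := aeval_surj h
  have hk : RingHom.ker ((aeval z : ℤ[X] →ₐ[ℤ] R) : ℤ[X] →+* R) ≤
      RingHom.ker (eval₂RingHom (Int.castRingHom T) g) := by
    intro p hp
    rw [RingHom.mem_ker] at hp ⊢
    obtain ⟨r, hr⟩ := dvd_of_eval_eq_zero h p hp
    rw [hr, map_mul]
    have h0 : eval₂RingHom (Int.castRingHom T) g (X ^ 2 ^ n + 1) = 0 := by
      simp [hg]
    rw [h0, zero_mul]
  refine ⟨RingHom.liftOfSurjective _ hs ⟨_, hk⟩, ?_⟩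
  have h1 := RingHom.liftOfSurjective_comp_apply _ hs ⟨_, hk⟩ X
  have h2 : ((aeval z : ℤ[X] →ₐ[ℤ] R) : ℤ[X] →+* R) X = z := by simp
  rw [h2] at h1
  rw [h1]
  simp

theorem ext : EXT_stmt := by
  intro R _ n z h T _ φ ψ hz
  ext x
  obtain ⟨c, hc⟩ := h.span x
  rw [hc, map_sum, map_sum]
  refine Finset.sum_congr rfl fun k _ => ?_
  simp [hz]

end Pool.Agent.helper20.UF
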