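import Pool.Agent.helper20.UF.AUT

set_option autoImplicit false

open Polynomial Finset

namespace Pool.Agent.helper20.UF

/-- Coefficients of an element. -/
noncomputable def co {R : Type} [CommRing R] {n : ℕ} {z : R} (h : CY R n z) (x : R) : ℕ → ℤ :=
  (h.span x).choose

theorem co_spec {R : Type} [CommRing R] {n : ℕ} {z : R} (h : CY R n z) (x : R) :
    x = ∑ k ∈ range (2 ^ n), (co h x k : R) * z ^ k := (h.span x).choose_spec

theorem coeff_unique {R : Type} [CommRing R] {n : ℕ} {z : R} (h : CY R n z) {c d : ℕ → ℤ}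
    (hcd : ∑ k ∈ range (2 ^ n), (c k : R) * z ^ k = ∑ k ∈ range (2 ^ n), (d k : R) * z ^ k) :
    ∀ k < 2 ^ n, c k = d k := by
  intro k hk
  have h1 : ∑ k ∈ range (2 ^ n), ((c k - d k : ℤ) : R) * z ^ k = 0 := by
    rw [← sub_eq_zero.mpr hcd, ← Finset.sum_sub_distrib]
    refine Finset.sum_congr rfl fun k _ => ?_
    push_cast
    ring
  have := h.indep (fun k => c k - d k) h1 k hk
  omega

theorem co_sum {R : Type} [CommRing R] {n : ℕ} {z : R} (h : CY R n z) (c : ℕ → ℤ) :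
    ∀ k < 2 ^ n, co h (∑ k ∈ range (2 ^ n), (c k : R) * z ^ k) k = c k := by
  intro k hk
  exact coeff_unique h (co_spec h _).symm k hk

/-- The constant coefficient. -/
noncomputable def L0 {R : Type} [CommRing R] {n : ℕ} {z : R} (h : CY R n z) : R →+ ℤ :=
  AddMonoidHom.mk' (fun x => co h x 0) (by
    intro x y
    have h1 : ∑ k ∈ range (2 ^ n), (co h (x + y) k : R) * z ^ k =
        ∑ k ∈ range (2 ^ n), ((co h x k + co h y k : ℤ) : R) * z ^ k := by
      rw [← co_spec]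
      conv_lhs => rw [co_spec h x, co_spec h y]
      rw [← Finset.sum_add_distrib]
      refine Finset.sum_congr rfl fun k _ => ?_
      push_cast
      ring
    exact coeff_unique (c := co h (x + y)) (d := fun k => co h x k + co h y k) h h1 0 (by positivity))

theorem L0_sum {R : Type} [CommRing R] {n : ℕ} {z : R} (h : CY R n z) (c : ℕ → ℤ) :
    L0 h (∑ k ∈ range (2 ^ n), (c k : R) * z ^ k) = c 0 :=
  co_sum h c 0 (by positivity)

theorem L0_pow_lt {R : Type} [CommRing R] {n : ℕ} {z : R} (h : CY R n z) (r : ℕ) (hr : r < 2 ^ n) :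
    L0 h (z ^ r) = if r = 0 then 1 else 0 := by
  have h1 : z ^ r = ∑ k ∈ range (2 ^ n), ((if k = r then (1 : ℤ) else 0 : ℤ) : R) * z ^ k := by
    rw [Finset.sum_eq_single r]
    · simp
    · intro b _ hb
      simp [hb]
    · intro hn
      exact absurd (Finset.mem_range.mpr hr) hn
  rw [h1, L0_sum h (fun k => if k = r then (1 : ℤ) else 0)]
  by_cases h0 : r = 0
  · simp [h0]
  · simp [h0, Ne.symm h0]

theorem L0_pow {R : Type} [CommRing R] {n : ℕ} {z : R} (h : CY R n z) (k : ℕ)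
    (hk : ¬ 2 ^ n ∣ k) : L0 h (z ^ k) = 0 := by
  have hr : k % 2 ^ n < 2 ^ n := Nat.mod_lt _ (by positivity)
  have hr0 : k % 2 ^ n ≠ 0 := fun h0 => hk (Nat.dvd_of_mod_eq_zero h0)
  have h1 : z ^ k = (-1) ^ (k / 2 ^ n) * z ^ (k % 2 ^ n) := by
    conv_lhs => rw [← Nat.div_add_mod k (2 ^ n)]
    rw [pow_add, pow_mul, h.root]
  rw [h1]
  rcases neg_one_pow_eq_or R (k / 2 ^ n) with h2 | h2
  · rw [h2, one_mul, L0_pow_lt h _ hr, if_neg hr0]
  · rw [h2, neg_one_mul, map_neg, L0_pow_lt h _ hr, if_neg hr0, neg_zero]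

theorem L0_one {R : Type} [CommRing R] {n : ℕ} {z : R} (h : CY R n z) : L0 h 1 = 1 := by
  have := L0_pow_lt h 0 (by positivity)
  simpa using this

theorem L0_mixed {R : Type} [CommRing R] {n : ℕ} {z : R} (h : CY R n z) (σ : R →+* R)
    (hσ : z * σ z = 1) (k l : ℕ) (hk : k < 2 ^ n) (hl : l < 2 ^ n) :
    L0 h (z ^ k * σ z ^ l) = if k = l then 1 else 0 := by
  by_cases hkl : k = l
  · rw [hkl, ← mul_pow, hσ, one_pow, L0_one, if_pos rfl]
  rw [if_neg hkl]
  have hinv : σ z = z ^ (2 ^ (n + 1) - 1) := by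
    have h1 : z * z ^ (2 ^ (n + 1) - 1) = 1 := by
      rw [← pow_succ', Nat.sub_add_cancel Nat.one_le_two_pow, pow_two_pow_succ h]
    calc σ z = (z * z ^ (2 ^ (n + 1) - 1)) * σ z := by rw [h1, one_mul]
      _ = z ^ (2 ^ (n + 1) - 1) * (z * σ z) := by ring
      _ = _ := by rw [hσ, mul_one]
  rw [hinv, ← pow_mul, ← pow_add]
  apply L0_pow
  intro hd
  have h2 : 2 ^ (n + 1) = 2 * 2 ^ n := by rw [pow_succ']
  have h3 : k + (2 ^ (n + 1) - 1) * l + l = k + 2 ^ (n + 1) * l := by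
    rw [add_assoc, ← Nat.succ_mul, Nat.succ_eq_add_one, Nat.sub_add_cancel Nat.one_le_two_pow]
  have h4 : 2 ^ n ∣ k + (2 ^ (n + 1) - 1) * l := hd
  have h5 : (k : ℤ) - l = ((k + (2 ^ (n + 1) - 1) * l : ℕ) : ℤ) - ((2 ^ (n + 1) * l : ℕ) : ℤ) := by
    have h7 : ((k + (2 ^ (n + 1) - 1) * l + l : ℕ) : ℤ) = ((k + 2 ^ (n + 1) * l : ℕ) : ℤ) := by
      rw [h3]
    rw [Nat.cast_add (k + (2 ^ (n + 1) - 1) * l) l, Nat.cast_add k (2 ^ (n + 1) * l)] at h7
    linarith
  have h6 : ((2 ^ n : ℕ) : ℤ) ∣ (k : ℤ) - l := by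
    rw [h5]
    apply dvd_sub
    · exact_mod_cast h4
    · rw [h2]
      exact_mod_cast Dvd.dvd.mul_right (Dvd.intro_left _ rfl) _
  obtain ⟨t, ht⟩ := h6
  have hk' : (k : ℤ) < ((2 ^ n : ℕ) : ℤ) := by exact_mod_cast hk
  have hl' : (l : ℤ) < ((2 ^ n : ℕ) : ℤ) := by exact_mod_cast hl
  have hpos : (0 : ℤ) < ((2 ^ n : ℕ) : ℤ) := by positivity
  have ht0 : t = 0 := by
    by_contra hne
    rcases lt_or_gt_of_ne hne with hlt | hgt
    · have : ((2 ^ n : ℕ) : ℤ) * t ≤ ((2 ^ n : ℕ) : ℤ) * (-1) :=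
        mul_le_mul_of_nonneg_left (by omega) hpos.le
      omega
    · have : ((2 ^ n : ℕ) : ℤ) * 1 ≤ ((2 ^ n : ℕ) : ℤ) * t :=
        mul_le_mul_of_nonneg_left (by omega) hpos.le
      omega
  rw [ht0, mul_zero] at ht
  exact hkl (by omega)

theorem L0_sq {R : Type} [CommRing R] {n : ℕ} {z : R} (h : CY R n z) (σ : R →+* R)
    (hσ : z * σ z = 1) (c : ℕ → ℤ) :
    L0 h ((∑ k ∈ range (2 ^ n), (c k : R) * z ^ k) * σ (∑ k ∈ range (2 ^ n), (c k : R) * z ^ k))
      = ∑ k ∈ range (2 ^ n), c k ^ 2 := by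
  rw [map_sum σ, Finset.sum_mul_sum, map_sum]
  refine Finset.sum_congr rfl fun k hk => ?_
  rw [map_sum, Finset.sum_eq_single k]
  · have h1 : (c k : R) * z ^ k * σ ((c k : R) * z ^ k) = ((c k ^ 2 : ℤ) : R) * (z ^ k * σ z ^ k) := by
      rw [map_mul, map_pow, map_intCast]
      push_cast
      ring
    rw [h1, ← zsmul_eq_mul, map_zsmul, L0_mixed h σ hσ k k (Finset.mem_range.mp hk)
      (Finset.mem_range.mp hk), if_pos rfl]
    simp
  · intro l hl hlk
    have h1 : (c k : R) * z ^ k * σ ((c l : R) * z ^ l) = ((c k * c l : ℤ) : R) * (z ^ k * σ z ^ l) := by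
      rw [map_mul, map_pow, map_intCast]
      push_cast
      ring
    rw [h1, ← zsmul_eq_mul, map_zsmul, L0_mixed h σ hσ k l (Finset.mem_range.mp hk)
      (Finset.mem_range.mp hl), if_neg (Ne.symm hlk)]
    simp
  · intro hn
    exact absurd hk hn

theorem lin : LIN_stmt := by
  intro R _ n z h
  exact ⟨L0 h, L0_one h, L0_pow h, L0_sum h, fun σ hσ c => L0_sq h σ hσ c⟩

end Pool.Agent.helper20.UF
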