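import Pool.Agent.helper20.UF.Spec

set_option autoImplicit false

open Polynomial Finset

namespace Pool.Agent.helper20.UF

/-- A Fermat number is not a proper power. -/
theorem fermat_ne_pow (m y k : ℕ) (hk : 2 ≤ k) : y ^ k ≠ 2 ^ 2 ^ m + 1 := by
  intro h
  -- parity of y
  have hodd : Odd y := by
    by_contra hne
    rw [Nat.not_odd_iff_even] at hne
    have h1 : Even (y ^ k) := hne.pow_of_ne_zero (by omega)
    rw [h] at h1
    have h2 : Even (2 ^ 2 ^ m) := (even_two).pow_of_ne_zero (by positivity)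
    exact (Nat.not_even_iff_odd.mpr h2.add_one) h1
  rcases Nat.even_or_odd k with hke | hko
  · -- squares
    obtain ⟨j, hj⟩ := hke
    have hj1 : 1 ≤ j := by omega
    set w := y ^ j with hw
    have h1 : w * w = 2 ^ 2 ^ m + 1 := by rw [hw, ← pow_add, ← hj, h]
    have hw1 : 1 < w := by
      by_contra hle
      have : w ≤ 1 := by omega
      have h2 : w * w ≤ 1 := by nlinarith
      have h3 : 0 < 2 ^ 2 ^ m := by positivity
      omega
    obtain ⟨v, hv⟩ : ∃ v, w = v + 1 := ⟨w - 1, by omega⟩
    have h2 : v * (v + 2) = 2 ^ 2 ^ m := by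
      rw [hv] at h1
      nlinarith
    obtain ⟨a, -, ha⟩ := (Nat.dvd_prime_pow Nat.prime_two).mp (Dvd.intro _ h2)
    obtain ⟨b, -, hb⟩ := (Nat.dvd_prime_pow Nat.prime_two).mp (Dvd.intro_left _ h2)
    have ha2 : a = 1 := by
      rcases Nat.lt_or_ge a 2 with hlt | hge
      · interval_cases a
        · rw [pow_zero] at ha
          rw [ha] at hb
          have h5 : b ≠ 0 := by rintro rfl; norm_num at hb
          have h6 : 2 ∣ 2 ^ b := dvd_pow_self 2 h5
          rw [← hb] at h6
          omega
        · rfl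
      · exfalso
        have key : ∀ c : ℕ, 2 ≤ c → ∃ d : ℕ, (2 : ℕ) ^ c = 4 * d := by
          intro c hc
          obtain ⟨d, rfl⟩ : ∃ d, c = d + 2 := ⟨c - 2, by omega⟩
          exact ⟨2 ^ d, by rw [pow_add]; ring⟩
        obtain ⟨d, hd⟩ := key a hge
        rcases Nat.lt_or_ge b 2 with hb2 | hb2
        · have h7 : 2 ^ b ≤ 2 := by
            interval_cases b <;> norm_num
          rw [← hb] at h7
          omega
        · obtain ⟨d', hd'⟩ := key b hb2
          rw [hd] at ha
          rw [hd'] at hb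
          omega
    rw [ha2, pow_one] at ha
    rw [ha] at h2
    have h3 : (2 : ℕ) ^ 3 = 2 ^ 2 ^ m := by rw [← h2]; norm_num
    have h4 : 3 = 2 ^ m := Nat.pow_right_injective (le_refl 2) h3
    rcases Nat.eq_zero_or_pos m with h0 | hpos
    · rw [h0] at h4; norm_num at h4
    · have : 2 ∣ 2 ^ m := dvd_pow_self 2 (by omega)
      omega
  · -- odd exponent
    have hy1 : 1 < y := by
      by_contra hle
      have : y ≤ 1 := by omega
      have h3 : y ^ k ≤ 1 := by
        calc y ^ k ≤ 1 ^ k := Nat.pow_le_pow_left this k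
          _ = 1 := one_pow k
      have h4 : 0 < 2 ^ 2 ^ m := by positivity
      omega
    have h1 : (∑ i ∈ range k, y ^ i) * (y - 1) = 2 ^ 2 ^ m := by
      have := Nat.geomSum_eq (m := y) (by omega) k
      have h2 : (∑ i ∈ range k, y ^ i) * (y - 1) = y ^ k - 1 := by
        have h5 := geom_sum_mul_of_one_le (x := y) (by omega) k
        exact h5
      rw [h2, h]
      simp
    have h2 : (∑ i ∈ range k, y ^ i) ∣ 2 ^ 2 ^ m := Dvd.intro _ h1
    obtain ⟨a, -, ha⟩ := (Nat.dvd_prime_pow Nat.prime_two).mp h2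
    have h3 : Odd (∑ i ∈ range k, y ^ i) := by
      have h4 : ∀ k : ℕ, (∑ i ∈ range k, y ^ i) % 2 = k % 2 := by
        intro k
        induction k with
        | zero => simp
        | succ k ih =>
          rw [Finset.sum_range_succ, Nat.add_mod, ih]
          have h6 : y ^ k % 2 = 1 := Nat.odd_iff.mp (hodd.pow)
          rw [h6]
          omega
      rw [Nat.odd_iff, h4 k]
      exact Nat.odd_iff.mp hko
    have h4 : a = 0 := by
      by_contra hne
      rw [ha] at h3
      have : Even (2 ^ a) := even_two.pow_of_ne_zero hne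
      exact (Nat.not_even_iff_odd.mpr h3) this
    rw [h4, pow_zero] at ha
    have h5 : 1 + y ≤ ∑ i ∈ range k, y ^ i := by
      calc 1 + y = ∑ i ∈ range 2, y ^ i := by simp [Finset.sum_range_succ]
        _ ≤ ∑ i ∈ range k, y ^ i :=
          Finset.sum_le_sum_of_subset (Finset.range_mono hk)
    omega

theorem ppw : PPW_stmt := by
  intro m D r t hr htr hD hDF heq
  have hF : 1 < 2 ^ 2 ^ m + 1 := by
    have : 0 < 2 ^ 2 ^ m := by positivity
    omega
  rcases Nat.eq_zero_or_pos t with h0 | hpos
  · rw [h0, pow_zero] at heq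
    have := Nat.one_lt_pow (n := r) (by omega) hD
    omega
  have hlt : t < r := by
    rcases Nat.lt_or_ge t r with h | h
    · exact h
    · have : t = r := by omega
      rw [this] at heq
      have := Nat.pow_left_injective (by omega : r ≠ 0) heq
      omega
  set g := Nat.gcd r t with hg
  have hgpos : 0 < g := Nat.gcd_pos_of_pos_left _ (by omega)
  obtain ⟨r', hr'⟩ : g ∣ r := Nat.gcd_dvd_left _ _
  obtain ⟨t', ht'⟩ : g ∣ t := Nat.gcd_dvd_right _ _
  have hcop : Nat.Coprime r' t' := by
    have h1 := Nat.coprime_div_gcd_div_gcd (m := r) (n := t) hgpos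
    rw [← hg] at h1
    have h2 : r / g = r' := by rw [hr']; exact Nat.mul_div_cancel_left _ hgpos
    have h3 : t / g = t' := by rw [ht']; exact Nat.mul_div_cancel_left _ hgpos
    rwa [h2, h3] at h1
  have h1 : D ^ r' = (2 ^ 2 ^ m + 1) ^ t' := by
    have h2 : (D ^ r') ^ g = ((2 ^ 2 ^ m + 1) ^ t') ^ g := by
      rw [← pow_mul, ← pow_mul, mul_comm r' g, mul_comm t' g, ← hr', ← ht', heq]
    exact Nat.pow_left_injective (by omega : g ≠ 0) h2
  obtain ⟨c, hc⟩ := Nat.exists_eq_pow_of_exponent_coprime_of_pow_eq_pow hcop h1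
  have hr2 : 2 ≤ r' := by
    rcases Nat.lt_or_ge r' 2 with h | h
    · exfalso
      interval_cases r'
      · omega
      · rw [mul_one] at hr'
        have h5 : g ≤ t := Nat.le_of_dvd hpos (Nat.gcd_dvd_right _ _)
        omega
    · exact h
  exact fermat_ne_pow m c r' hr2 hc.2.symm

end Pool.Agent.helper20.UF
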