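import Mathlib

/-!
# Fermat numbers and class groups of 2-power cyclotomic fields: statements of the rows

Page: /team-store/TT_37e5fa_U.md.  `CY R n z`: the ring `R` is `Z[x]/(x^(2^n)+1)`, `z` the class of `x`.
-/

set_option autoImplicit false

open Polynomial Finset

namespace Pool.Agent.helper20.UF

/-- `R` is `ℤ[z]` with `z ^ (2 ^ n) = -1` and `1, z, ..., z^(2^n - 1)` a basis over `ℤ`. -/
structure CY (R : Type) [CommRing R] (n : ℕ) (z : R) : Prop where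
  root : z ^ 2 ^ n = -1
  span : ∀ x : R, ∃ c : ℕ → ℤ, x = ∑ k ∈ range (2 ^ n), (c k : R) * z ^ k
  indep : ∀ c : ℕ → ℤ, ∑ k ∈ range (2 ^ n), (c k : R) * z ^ k = 0 → ∀ k < 2 ^ n, c k = 0

/-! ## Basic rows -/

/-- HOM: universal property. -/
def HOM_stmt : Prop := ∀ (R : Type) [CommRing R] (n : ℕ) (z : R), CY R n z →
  ∀ (T : Type) [CommRing T] (g : T), g ^ 2 ^ n = -1 → ∃ φ : R →+* T, φ z = g

/-- EXT: a ring homomorphism is determined by the image of `z`. -/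
def EXT_stmt : Prop := ∀ (R : Type) [CommRing R] (n : ℕ) (z : R), CY R n z →
  ∀ (T : Type) [CommRing T] (φ ψ : R →+* T), φ z = ψ z → φ = ψ

/-- AUT: the automorphisms `z ↦ z ^ q`, `q` odd; in particular complex conjugation. -/
def AUT_stmt : Prop := ∀ (R : Type) [CommRing R] (n : ℕ) (z : R), CY R n z →
  (∀ q : ℕ, Odd q → ∃ τ : R ≃+* R, τ z = z ^ q) ∧
  (∃ σ : R ≃+* R, z * σ z = 1 ∧ ∀ x, σ (σ x) = x)

/-- LIN: the constant coefficient and the sum of the squares of the coefficients. -/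
def LIN_stmt : Prop := ∀ (R : Type) [CommRing R] (n : ℕ) (z : R), CY R n z →
  ∃ L : R →+ ℤ, L 1 = 1 ∧ (∀ k : ℕ, ¬ 2 ^ n ∣ k → L (z ^ k) = 0) ∧
    (∀ c : ℕ → ℤ, L (∑ k ∈ range (2 ^ n), (c k : R) * z ^ k) = c 0) ∧
    ∀ σ : R →+* R, z * σ z = 1 → ∀ c : ℕ → ℤ,
      L ((∑ k ∈ range (2 ^ n), (c k : R) * z ^ k) * σ (∑ k ∈ range (2 ^ n), (c k : R) * z ^ k))
        = ∑ k ∈ range (2 ^ n), c k ^ 2

/-- ZMD: the homomorphism to `ZMod D` and its kernel. -/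
def ZMD_stmt : Prop := ∀ (R : Type) [CommRing R] (n : ℕ) (z : R), CY R n z →
  ∀ (a : ℤ) (D : ℕ), (D : ℤ) ∣ a ^ 2 ^ n + 1 → ∃ φ : R →+* ZMod D, Function.Surjective φ ∧
    φ z = (a : ZMod D) ∧ RingHom.ker φ = Ideal.span {(D : R), (a : R) - z}

/-- MDV: `a - z` divides `a ^ N + 1`, and an integer divisible by `a - z` is divisible by `a ^ N + 1`. -/
def MDV_stmt : Prop := ∀ (R : Type) [CommRing R] (n : ℕ) (z : R), CY R n z → ∀ (a : ℤ),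
  ((a : R) - z ∣ ((a ^ 2 ^ n + 1 : ℤ) : R)) ∧
  ∀ k : ℤ, (a : R) - z ∣ (k : R) → a ^ 2 ^ n + 1 ∣ k

/-- PIV: the prime above 2. -/
def PIV_stmt : Prop := ∀ (R : Type) [CommRing R] [IsDomain R] (n : ℕ) (z : R), CY R n z →
  CharZero R ∧ ¬ IsUnit (1 - z) ∧ (1 : R) - z ≠ 0 ∧
  ∀ k : ℕ, ¬ 2 ^ (n + 1) ∣ k → Associated (1 - z ^ k) ((1 - z) ^ 2 ^ padicValNat 2 k)

/-- COP: `a - z` and its conjugate are coprime for even `a`. -/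
def COP_stmt : Prop := ∀ (R : Type) [CommRing R] [IsDomain R] (n : ℕ) (z : R), CY R n z → 1 ≤ n →
  ∀ σ : R ≃+* R, z * σ z = 1 → ∀ a : ℤ, Even a → IsCoprime ((a : R) - z) ((a : R) - σ z)

/-! ## Part I: `2 - z` is irreducible -/

/-- C41: the case of coefficients 4 + 1. -/
def C41_stmt : Prop := ∀ (R : Type) [CommRing R] [IsDomain R] (z u A : R) (σ : R ≃+* R),
  z * σ z = 1 → (∀ x, σ (σ x) = x) → u * σ u = 1 → A * σ A = 4 →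
  A * σ u + σ A * u = -2 * (z + σ z) → A = -2 * z * u ∨ A = -2 * σ z * u

/-- C32a: structure of the case of coefficients 3 + 2 (the vanishing sum of eight roots of unity). -/
def C32a_stmt : Prop := ∀ (R : Type) [CommRing R] [IsDomain R] (n : ℕ) (z : R), CY R n z →
  ∀ σ : R ≃+* R, z * σ z = 1 → ∀ x₁ x₂ x₃ y₁ y₂ : ℕ,
  ¬ (x₁ ≡ x₂ [MOD 2 ^ n]) → ¬ (x₂ ≡ x₃ [MOD 2 ^ n]) → ¬ (x₁ ≡ x₃ [MOD 2 ^ n]) →
  ¬ (y₁ ≡ y₂ [MOD 2 ^ n]) → x₁ ≡ x₂ [MOD 2] → x₂ ≡ x₃ [MOD 2] → ¬ (x₁ ≡ y₁ [MOD 2]) →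
  y₁ ≡ y₂ [MOD 2] →
  (z ^ x₁ + z ^ x₂ + z ^ x₃) * σ (z ^ x₁ + z ^ x₂ + z ^ x₃) +
    (z ^ y₁ + z ^ y₂) * σ (z ^ y₁ + z ^ y₂) = 5 →
  ∃ v w e : ℕ, ¬ (v ≡ w [MOD 2]) ∧ Even e ∧ ¬ (2 ^ (n + 1) ∣ 4 * e) ∧
    z ^ x₁ + z ^ x₂ + z ^ x₃ = z ^ v * (1 + z ^ e - σ (z ^ e)) ∧
    z ^ y₁ + z ^ y₂ = z ^ w * (z ^ e + σ (z ^ e))

/-- C32b: the form found in C32a contradicts the second equation. -/
def C32b_stmt : Prop := ∀ (R : Type) [CommRing R] [IsDomain R] (n : ℕ) (z : R), CY R n z →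
  ∀ σ : R ≃+* R, z * σ z = 1 → (∀ x, σ (σ x) = x) → ∀ v w e : ℕ, ¬ (v ≡ w [MOD 2]) → Even e →
  ¬ (2 ^ (n + 1) ∣ 4 * e) →
  z ^ v * (1 + z ^ e - σ (z ^ e)) * σ (z ^ w * (z ^ e + σ (z ^ e))) +
    σ (z ^ v * (1 + z ^ e - σ (z ^ e))) * (z ^ w * (z ^ e + σ (z ^ e))) ≠ -2 * (z + σ z)

/-- PR1: phase retrieval for `2 - z`. -/
def PR1_stmt : Prop := ∀ (R : Type) [CommRing R] [IsDomain R] (n : ℕ) (z : R), CY R n z → 2 ≤ n →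
  ∀ σ : R ≃+* R, z * σ z = 1 → (∀ x, σ (σ x) = x) → ∀ ρ : R,
  ρ * σ ρ = (2 - z) * (2 - σ z) →
  ∃ u : R, IsUnit u ∧ (ρ = u * (2 - z) ∨ ρ = u * (2 - σ z))

/-! ## Part II: powers and lower levels -/

/-- MBD: bound for the number of nonzero coefficients. -/
def MBD_stmt : Prop := ∀ (R : Type) [CommRing R] (n : ℕ) (z : R), CY R n z →
  ∀ σ : R ≃+* R, z * σ z = 1 → ∀ (a r : ℕ) (c : ℕ → ℤ),
  (∑ k ∈ range (2 ^ n), (c k : R) * z ^ k) * σ (∑ k ∈ range (2 ^ n), (c k : R) * z ^ k)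
    = (((a : R) - z) * ((a : R) - σ z)) ^ r →
  #{k ∈ range (2 ^ n) | c k ≠ 0} ≤ (a + 1) ^ (2 * r)

/-- DIR: simultaneous approximation with an odd multiplier. -/
def DIR_stmt : Prop := ∀ (n r : ℕ) (S : Finset ℕ), 1 ≤ n → 1 ≤ r →
  (12 * r) ^ (S.card + 1) < 2 ^ (n + 1) →
  ∃ (ν q e E : ℕ) (ε : ℕ → ℤ), 1 ≤ ν ∧ ν ≤ n ∧ Odd q ∧ Odd e ∧ e ≤ E ∧
    (4 + r) * E < 2 ^ (n + 1 - ν) ∧ (2 + 2 * r) * E < 2 ^ (n + 1 - ν) ∧
    ((2 ^ (n + 1 - ν) : ℕ) : ℤ) ∣ (q : ℤ) - e ∧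
    ∀ k ∈ S, |ε k| ≤ E ∧ ((2 ^ (n + 1 - ν) : ℕ) : ℤ) ∣ (q : ℤ) * k - ε k

/-- LFT: `z` has degree `N' = 2 ^ (n + 1 - ν)` over `R₀ = ℤ[z ^ N']`. -/
def LFT_stmt : Prop := ∀ (R R₀ : Type) [CommRing R] [CommRing R₀] (n ν : ℕ) (z : R) (w : R₀),
  1 ≤ ν → ν ≤ n → CY R n z → CY R₀ (ν - 1) w → ∀ ι : R₀ →+* R, ι w = z ^ 2 ^ (n + 1 - ν) →
  ∀ P : R₀[X], P.natDegree < 2 ^ (n + 1 - ν) → P.eval₂ ι z = 0 → P = 0

/-- IRR: irreducibility of the two binomials. -/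
def IRR_stmt : Prop := ∀ (R₀ : Type) [CommRing R₀] [IsDomain R₀] (μ : ℕ) (w : R₀), CY R₀ μ w →
  ∀ (e i : ℕ) (y y' : R₀), Odd e → y * y' = 1 →
  Irreducible (X ^ e - C (algebraMap R₀ (FractionRing R₀) ((2 ^ 2 ^ i : ℕ) * y'))) ∧
  Irreducible (X ^ e - C (algebraMap R₀ (FractionRing R₀) y' /
    algebraMap R₀ (FractionRing R₀) ((2 ^ 2 ^ i : ℕ) : R₀)))

/-- UFS: the factorisation step. `G = (a - y X^e)(a X^e - y')`. -/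
def UFS_stmt : Prop := ∀ (R₀ : Type) [CommRing R₀] [IsDomain R₀] (a : ℕ) (e r E : ℕ) (y y' : R₀)
  (P P' : R₀[X]), 2 ≤ a → ((a : ℕ) : R₀) ≠ 0 → 1 ≤ e → y * y' = 1 →
  Irreducible (X ^ e - C (algebraMap R₀ (FractionRing R₀) ((a : R₀) * y'))) →
  Irreducible (X ^ e - C (algebraMap R₀ (FractionRing R₀) y' /
    algebraMap R₀ (FractionRing R₀) ((a : ℕ) : R₀))) →
  P * P' * X ^ (e * r) = X ^ (2 * E) * ((C (a : R₀) - C y * X ^ e) * (C (a : R₀) * X ^ e - C y')) ^ r →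
  ∃ (c : R₀) (t b b' : ℕ),
    P = C c * X ^ t * (C (a : R₀) - C y * X ^ e) ^ b * (1 - C ((a : R₀) * y) * X ^ e) ^ b'

/-- PRR: phase retrieval for powers of `a - z`. -/
def PRR_stmt : Prop := ∀ (R : Type) [CommRing R] [IsDomain R] (n : ℕ) (z : R), CY R n z → 1 ≤ n →
  ∀ σ : R ≃+* R, z * σ z = 1 → (∀ x, σ (σ x) = x) → ∀ (i r : ℕ) (ρ : R), 1 ≤ r →
  (12 * r) ^ ((2 ^ 2 ^ i + 1) ^ (2 * r) + 1) < 2 ^ (n + 1) →
  ρ * σ ρ = ((((2 ^ 2 ^ i : ℕ) : R) - z) * (((2 ^ 2 ^ i : ℕ) : R) - σ z)) ^ r →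
  ∃ (u : R) (b : ℕ), IsUnit u ∧ b ≤ r ∧
    ρ = u * (((2 ^ 2 ^ i : ℕ) : R) - z) ^ b * (((2 ^ 2 ^ i : ℕ) : R) - σ z) ^ (r - b)

/-! ## End -/

/-- END: from phase retrieval to `γ ~ α ^ t`. -/
def END_stmt : Prop := ∀ (R : Type) [CommRing R] [IsDomain R] (σ : R ≃+* R) (α γ γ' u : R)
  (r b : ℕ), (∀ x, σ (σ x) = x) → α ≠ 0 → IsCoprime α (σ α) → IsUnit u → b ≤ r →
  γ * γ' = α ^ r → σ γ * γ' = u * α ^ b * σ α ^ (r - b) → ∃ t ≤ r, Associated γ (α ^ t)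

/-- PPW: Fermat numbers are not proper powers, in the form needed. -/
def PPW_stmt : Prop := ∀ (m D r t : ℕ), 1 ≤ r → t ≤ r → 1 < D → D < 2 ^ 2 ^ m + 1 →
  D ^ r ≠ (2 ^ 2 ^ m + 1) ^ t

/-- EXI: the ring of integers of the cyclotomic field. -/
def EXI_stmt : Prop := ∀ (n : ℕ) (K : Type) [Field K] [NumberField K]
  [IsCyclotomicExtension {2 ^ (n + 1)} ℚ K] (z : K) (hz : IsPrimitiveRoot z (2 ^ (n + 1))),
  CY (NumberField.RingOfIntegers K) n hz.toInteger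

/-- FIA: irreducibility for all `n` in the ring of integers. -/
def FIA_stmt : Prop := ∀ (n : ℕ) (K : Type) [Field K] [NumberField K]
  [IsCyclotomicExtension {2 ^ (n + 1)} ℚ K] (z : K) (hz : IsPrimitiveRoot z (2 ^ (n + 1))),
  Irreducible (2 - hz.toInteger)

/-- FIB: the ideals `(D, a - z)` and their powers. -/
def FIB_stmt : Prop := ∀ (n i r : ℕ) (K : Type) [Field K] [NumberField K]
  [IsCyclotomicExtension {2 ^ (n + 1)} ℚ K] (z : K) (hz : IsPrimitiveRoot z (2 ^ (n + 1))) (D : ℕ),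
  1 ≤ r → (i = 0 ∧ r = 1 ∨ (12 * r) ^ ((2 ^ 2 ^ i + 1) ^ (2 * r) + 1) < 2 ^ (n + 1)) →
  D ∣ 2 ^ 2 ^ (n + i) + 1 → 1 < D → D < 2 ^ 2 ^ (n + i) + 1 →
  ¬ (Ideal.span {(D : NumberField.RingOfIntegers K), (2 ^ 2 ^ i : ℕ) - hz.toInteger} ^ r).IsPrincipal

/-- CNJ: an ideal of prime norm `p` is conjugate to `(p, a - z)`. -/
def CNJ_stmt : Prop := ∀ (n i : ℕ) (K : Type) [Field K] [NumberField K]
  [IsCyclotomicExtension {2 ^ (n + 1)} ℚ K] (z : K) (hz : IsPrimitiveRoot z (2 ^ (n + 1))) (p : ℕ)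
  (I : Ideal (NumberField.RingOfIntegers K)), p.Prime → p ∣ 2 ^ 2 ^ (n + i) + 1 →
  Ideal.absNorm I = p → ∃ τ : NumberField.RingOfIntegers K ≃+* NumberField.RingOfIntegers K,
    I.map (τ : NumberField.RingOfIntegers K →+* NumberField.RingOfIntegers K) =
      Ideal.span {(p : NumberField.RingOfIntegers K), (2 ^ 2 ^ i : ℕ) - hz.toInteger}

/-- PRI: class number one implies that the Fermat number is prime. -/
def PRI_stmt : Prop := ∀ (n : ℕ) (K : Type) [Field K] [NumberField K]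
  [IsCyclotomicExtension {2 ^ (n + 1)} ℚ K], IsPrincipalIdealRing (NumberField.RingOfIntegers K) →
  (2 ^ 2 ^ n + 1).Prime

end Pool.Agent.helper20.UF
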