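import Pool.Agent.helper20.UF.LIN

set_option autoImplicit false

open Polynomial Finset

namespace Pool.Agent.helper20.UF

/-- Every element is congruent to an integer modulo `a - z`. -/
theorem exists_int_sub {R : Type} [CommRing R] {n : ℕ} {z : R} (h : CY R n z) (a : ℤ) (x : R) :
    ∃ s : ℤ, (a : R) - z ∣ x - (s : R) := by
  obtain ⟨c, hc⟩ := h.span x
  refine ⟨∑ k ∈ range (2 ^ n), c k * a ^ k, ?_⟩
  have h1 : x - ((∑ k ∈ range (2 ^ n), c k * a ^ k : ℤ) : R) =
      ∑ k ∈ range (2 ^ n), (c k : R) * (z ^ k - (a : R) ^ k) := by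
    rw [hc, Int.cast_sum, ← Finset.sum_sub_distrib]
    refine Finset.sum_congr rfl fun k _ => ?_
    push_cast
    ring
  rw [h1]
  refine Finset.dvd_sum fun k _ => ?_
  apply Dvd.dvd.mul_left
  have h2 : z - (a : R) ∣ z ^ k - (a : R) ^ k := sub_dvd_pow_sub_pow _ _ _
  rw [← neg_sub, neg_dvd]
  exact h2

theorem zmd : ZMD_stmt := by
  intro R _ n z h a D hD
  have hg : ((a : ℤ) : ZMod D) ^ 2 ^ n = -1 := by
    have h1 : ((a ^ 2 ^ n + 1 : ℤ) : ZMod D) = 0 := (ZMod.intCast_zmod_eq_zero_iff_dvd _ _).mpr hD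
    push_cast at h1
    exact eq_neg_of_add_eq_zero_left h1
  obtain ⟨φ, hφ⟩ := hom R n z h (ZMod D) _ hg
  refine ⟨φ, ?_, hφ, ?_⟩
  · intro y
    obtain ⟨k, hk⟩ := ZMod.intCast_surjective y
    exact ⟨(k : R), by rw [map_intCast, hk]⟩
  · apply le_antisymm
    · intro x hx
      rw [RingHom.mem_ker] at hx
      obtain ⟨s, hs⟩ := exists_int_sub h a x
      have h1 : x - (s : R) ∈ Ideal.span {(D : R), (a : R) - z} := by
        obtain ⟨t, ht⟩ := hs
        rw [ht]
        exact Ideal.mul_mem_right _ _ (Ideal.subset_span (by simp))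
      have h2 : φ (x - (s : R)) = 0 := by
        obtain ⟨t, ht⟩ := hs
        rw [ht, map_mul, map_sub, map_intCast, hφ, sub_self, zero_mul]
      rw [map_sub, hx, zero_sub, neg_eq_zero, map_intCast] at h2
      have h3 : (D : ℤ) ∣ s := (ZMod.intCast_zmod_eq_zero_iff_dvd _ _).mp h2
      obtain ⟨t, ht⟩ := h3
      have h4 : (s : R) ∈ Ideal.span {(D : R), (a : R) - z} := by
        rw [ht]
        push_cast
        exact Ideal.mul_mem_right _ _ (Ideal.subset_span (by simp))
      have := Ideal.add_mem _ h1 h4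
      simpa using this
    · rw [Ideal.span_le]
      intro x hx
      simp only [Set.mem_insert_iff, Set.mem_singleton_iff] at hx
      rw [SetLike.mem_coe, RingHom.mem_ker]
      rcases hx with rfl | rfl
      · rw [map_natCast, ZMod.natCast_self]
      · rw [map_sub, map_intCast, hφ, sub_self]

theorem mdv : MDV_stmt := by
  intro R _ n z h a
  constructor
  · have h1 : (a : R) - z ∣ (a : R) ^ 2 ^ n - z ^ 2 ^ n := sub_dvd_pow_sub_pow _ _ _
    rw [h.root, sub_neg_eq_add] at h1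
    push_cast
    exact h1
  · intro k hk
    have hD : ((a ^ 2 ^ n + 1 : ℤ).natAbs : ℤ) ∣ a ^ 2 ^ n + 1 := Int.natAbs_dvd.mpr dvd_rfl
    obtain ⟨φ, -, hφ, -⟩ := zmd R n z h a _ hD
    obtain ⟨t, ht⟩ := hk
    have h1 : φ (k : R) = 0 := by
      rw [ht, map_mul, map_sub, map_intCast, hφ, sub_self, zero_mul]
    rw [map_intCast, ZMod.intCast_zmod_eq_zero_iff_dvd] at h1
    exact Int.natAbs_dvd.mp h1

end Pool.Agent.helper20.UF
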